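import Pool.Agent.Helper50.MB.Goals

/-!
# Packet MB-AN2 (MP_fda85d_co)
-/

set_option autoImplicit false

namespace Pool.Agent.Helper85.MB

open Filter Topology

theorem goalAN2 (hAN1 : Pool.Agent.Helper50.MB.AN1) : Pool.Agent.Helper50.MB.AN2 := by
  intro g C hC hg0 hlim hrec
  obtain ⟨n0, hn0⟩ := hAN1
  have hK' : 0 < 10 * C := by positivity
  obtain ⟨m, hm⟩ := exists_nat_gt (256 * C ^ 2)
  refine ⟨10 * C + 16, max 100 (max n0 m), by positivity, fun x hx => ?_⟩
  by_contra hcon
  push Not at hcon
  have hx100 : 100 ≤ x := le_trans (le_max_left _ _) hx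
  have hxn0 : n0 ≤ x := le_trans (le_trans (le_max_left _ _) (le_max_right _ _)) hx
  have hxm : m ≤ x := le_trans (le_trans (le_max_right _ _) (le_max_right _ _)) hx
  have hxpos : (0 : ℝ) < x := by
    have : (100 : ℝ) ≤ x := by exact_mod_cast hx100
    linarith
  have hs1 : ∀ N : ℕ, 100 ≤ N → (1 : ℝ) ≤ Real.sqrt N * Real.log N := by
    intro N hN
    have hN' : (100 : ℝ) ≤ N := by exact_mod_cast hN
    have h1 : (1 : ℝ) ≤ Real.sqrt N := by
      rw [Real.one_le_sqrt]
      linarith
    have h2 : (1 : ℝ) ≤ Real.log N := by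
      rw [Real.le_log_iff_exp_le (by linarith)]
      have := Real.exp_one_lt_d9
      linarith
    nlinarith
  have key : ∀ N : ℕ, x ≤ N → (N : ℝ) / x + 10 * C * (Real.sqrt N * Real.log N) ≤ g N := by
    intro N
    induction N using Nat.strong_induction_on with
    | _ N ih =>
      intro hxN
      have hN100 : 100 ≤ N := hx100.trans hxN
      have hs := hs1 N hN100
      by_cases hN : N ≤ 16 * x
      · have h1 := hcon N hxN hN
        have h2 : (N : ℝ) / x ≤ 16 := by
          rw [div_le_iff₀ hxpos]
          exact_mod_cast hN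
        nlinarith
      · push Not at hN
        obtain ⟨n1, n2, h1, h2, h3, h4, h5⟩ := hrec N hN100
        have hNm : (m : ℝ) ≤ N := by exact_mod_cast hxm.trans hxN
        have hNpos : (0 : ℝ) < N := by
          have : (100 : ℝ) ≤ N := by exact_mod_cast hN100
          linarith
        have hsq : C * Real.sqrt N < N / 16 := by
          have h6 : 16 * C < Real.sqrt N := by
            apply Real.lt_sqrt_of_sq_lt
            nlinarith
          have h7 : Real.sqrt N * Real.sqrt N = N := Real.mul_self_sqrt hNpos.le
          have h8 : 0 < Real.sqrt N := Real.sqrt_pos.2 hNpos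
          nlinarith
        have h1' : (N : ℝ) ≤ 16 * n1 := by exact_mod_cast h1
        have h2' : (N : ℝ) ≤ 16 * n2 := by exact_mod_cast h2
        have h3' : (N : ℝ) ≤ n1 + n2 := by exact_mod_cast h3
        have l1 : n1 < N := by
          have : (n1 : ℝ) < N := by linarith
          exact_mod_cast this
        have l2 : n2 < N := by
          have : (n2 : ℝ) < N := by linarith
          exact_mod_cast this
        have i1 := ih n1 l1 (by omega)
        have i2 := ih n2 l2 (by omega)
        have hA := hn0 N n1 n2 (hxn0.trans hxN) h1 h2 h3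
        have h9 : (N : ℝ) / x ≤ n1 / x + n2 / x := by
          rw [← add_div]
          exact div_le_div_of_nonneg_right h3' hxpos.le
        have hA' := mul_le_mul_of_nonneg_left hA hK'.le
        nlinarith
  have hev : ∀ᶠ n : ℕ in atTop, g n / n < 1 / x :=
    hlim.eventually_lt_const (by positivity)
  obtain ⟨N, hN1, hN2⟩ := (hev.and (eventually_ge_atTop x)).exists
  have hk := key N hN2
  have hNpos : (0 : ℝ) < N := by
    have : (x : ℝ) ≤ N := by exact_mod_cast hN2
    linarith
  have hs := hs1 N (hx100.trans hN2)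
  rw [div_lt_div_iff₀ hNpos hxpos] at hN1
  have h10 : (N : ℝ) / x ≤ g N := by nlinarith
  rw [div_le_iff₀ hxpos] at h10
  linarith

end Pool.Agent.Helper85.MB
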