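import Pool.Agent.Helper59.MB.Goals1

set_option autoImplicit false

open MeasureTheory Filter Topology

namespace Pool.Agent.Helper85.MB

open Pool.Agent.Helper59.MB

theorem mono_s0 : StrictMono s0 := by
  intro a b hab
  unfold s0
  exact Nat.pow_lt_pow_left (by omega) (by norm_num)

theorem VM_eq (s : ℕ → ℕ) (k : ℕ) : VM s k = {fun _ => (1 : ℝ)} ∪
    (fun (a : ℤ) (i : ℕ) => mu (a + i)) ''
      ((Finset.Icc (-(P s (k + 2) : ℤ)) (P s (k + 2)) : Finset ℤ) : Set ℤ) := by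
  unfold VM
  congr 1
  ext v
  simp only [Set.mem_ofPred_eq, Set.mem_image, Finset.coe_Icc, Set.mem_Icc]
  constructor
  · rintro ⟨a, ha, rfl⟩
    exact ⟨a, abs_le.1 ha, rfl⟩
  · rintro ⟨a, ha, rfl⟩
    exact ⟨a, abs_le.2 ha, rfl⟩

theorem VM_fin (s : ℕ → ℕ) (k : ℕ) : (VM s k).Finite := by
  rw [VM_eq]
  exact (Set.finite_singleton _).union ((Finset.finite_toSet _).image _)

theorem VM_card (s : ℕ → ℕ) (k : ℕ) : (VM s k).ncard ≤ 2 * P s (k + 2) + 2 := by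
  rw [VM_eq]
  refine (Set.ncard_union_le _ _).trans ?_
  rw [Set.ncard_singleton]
  have h1 := Set.ncard_image_le (f := fun (a : ℤ) (i : ℕ) => mu (a + i))
    (Finset.finite_toSet (Finset.Icc (-(P s (k + 2) : ℤ)) (P s (k + 2))))
  rw [Set.ncard_coe_finset, Int.card_Icc] at h1
  have h2 : ((P s (k + 2) : ℤ) + 1 - (-(P s (k + 2) : ℤ))).toNat = 2 * P s (k + 2) + 1 := by
    omega
  rw [h2] at h1
  omega

theorem abs_mu_le (a : ℤ) : |mu a| ≤ 1 := by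
  unfold mu
  have h := ArithmeticFunction.abs_moebius_le_one (n := a.toNat)
  rw [← Int.cast_abs]
  exact_mod_cast h

theorem VM_le (s : ℕ → ℕ) (k : ℕ) : ∀ v ∈ VM s k, ∀ i, |v i| ≤ 1 := by
  rintro v (rfl | ⟨a, _, rfl⟩) i
  · simp
  · exact abs_mu_le _

/-- **PAR**. -/
theorem t_PAR (hPRB : S_PRB) (hINQ : S_INQ) : S_PAR := by
  intro m _ K
  refine ⟨mono_s0, VM_fin s0, fun k => Or.inl rfl, VM_le s0, fun k _ => ?_⟩
  obtain ⟨h1, h2⟩ := hINQ k
  refine ⟨?_, h2⟩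
  refine (hPRB s0 (VM s0) m mono_s0 (VM_fin s0) (VM_le s0) k).trans (le_trans ?_ h1)
  have h3 : ((VM s0 k).ncard : ℝ) ≤ 2 * P s0 (k + 2) + 2 := by
    exact_mod_cast VM_card s0 k
  gcongr

end Pool.Agent.Helper85.MB
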