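import Pool.Agent.Helper59.MB.Goals2

set_option autoImplicit false

open MeasureTheory Filter Topology

namespace Pool.Agent.Helper85.MB

open Pool.Agent.Helper59.MB

theorem V1_fin (k : ℕ) : (V1 k).Finite := Set.finite_singleton _

theorem V1_card (k : ℕ) : (V1 k).ncard = 1 := Set.ncard_singleton _

theorem V1_le (k : ℕ) : ∀ v ∈ V1 k, ∀ i, |v i| ≤ 1 := by
  rintro v rfl i
  simp

/-- **ADN**. -/
theorem t_ADN (hPRB : S_PRB) : S_ADN := by
  intro s m _ k hs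
  have hB : (0 : ℝ) < (2 : ℝ) ^ s k := by positivity
  set B : ℝ := (2 : ℝ) ^ s k with hBdef
  have hk : (0 : ℝ) < (k : ℝ) + 1 := by positivity
  set c : ℝ := 1 / (B * (8 * ((k : ℝ) + 1) ^ 2)) with hcdef
  have hc : 0 < c := by positivity
  have hlim : Tendsto (fun R : ℝ => (c * R) ^ 3 * Real.exp (-(c * R))) atTop (𝓝 0) :=
    (Real.tendsto_pow_mul_exp_neg_atTop_nhds_zero 3).comp (tendsto_id.const_mul_atTop hc)
  have hδ : 0 < c ^ 3 * (1 / (8 * ((k : ℝ) + 1) * 2 ^ (k + 2))) := by positivity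
  obtain ⟨R₀, hR₀⟩ := eventually_atTop.1 (hlim.eventually (gt_mem_nhds hδ))
  refine ⟨max ⌈R₀⌉₊ (2 * (k + 1) * 2 ^ s k), fun s' hs' hse hS => ?_⟩
  have hPk : P s' k = 2 ^ s k := by
    unfold P
    rw [hse k le_rfl]
  have hlt : s' (k + 1) < 2 ^ s' (k + 1) := Nat.lt_two_pow_self
  have h2 : 2 * (k + 1) * P s' k ≤ P s' (k + 1) := by
    rw [hPk]
    exact ((le_max_right _ _).trans hS).trans hlt.le
  refine ⟨?_, h2⟩
  refine (hPRB s' V1 m hs' V1_fin V1_le k).trans ?_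
  rw [V1_card, hPk]
  have hR1 : (1 : ℝ) ≤ (P s' (k + 1) : ℝ) := by
    exact_mod_cast (Nat.one_le_two_pow : 1 ≤ 2 ^ s' (k + 1))
  have hRR : R₀ ≤ (P s' (k + 1) : ℝ) := by
    refine (Nat.le_ceil R₀).trans ?_
    exact_mod_cast ((le_max_left _ _).trans hS).trans hlt.le
  set R : ℝ := (P s' (k + 1) : ℝ) with hR
  have h3 := hR₀ R hRR
  have h4 : R ^ 3 * Real.exp (-(c * R)) < 1 / (8 * ((k : ℝ) + 1) * 2 ^ (k + 2)) := by
    have h5 : c ^ 3 * (R ^ 3 * Real.exp (-(c * R))) <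
        c ^ 3 * (1 / (8 * ((k : ℝ) + 1) * 2 ^ (k + 2))) := by
      calc c ^ 3 * (R ^ 3 * Real.exp (-(c * R))) = (c * R) ^ 3 * Real.exp (-(c * R)) := by ring
        _ < _ := h3
    exact lt_of_mul_lt_mul_left h5 (by positivity)
  have hexp : -(R / ((2 ^ s k : ℕ) : ℝ)) / (8 * ((k : ℝ) + 1) ^ 2) = -(c * R) := by
    rw [hcdef, hBdef]
    push_cast
    field_simp
  rw [hexp]
  have hRpos : 0 < R := lt_of_lt_of_le one_pos hR1
  rw [le_div_iff₀ hRpos]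
  have h6 : (R + 1) ^ 2 ≤ 4 * R ^ 2 := by nlinarith
  have hE : 0 ≤ Real.exp (-(c * R)) := (Real.exp_pos _).le
  calc 2 * (((k : ℝ) + 1) * (R + 1) ^ 2 * ((1 : ℕ) : ℝ) * Real.exp (-(c * R))) * R
      ≤ 2 * (((k : ℝ) + 1) * (4 * R ^ 2) * ((1 : ℕ) : ℝ) * Real.exp (-(c * R))) * R := by
        gcongr
    _ = 8 * ((k : ℝ) + 1) * (R ^ 3 * Real.exp (-(c * R))) := by push_cast; ring
    _ ≤ 8 * ((k : ℝ) + 1) * (1 / (8 * ((k : ℝ) + 1) * 2 ^ (k + 2))) := by gcongr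
    _ = (1 / 2) ^ (k + 2) := by
        rw [one_div_pow]
        field_simp

end Pool.Agent.Helper85.MB
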