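import Pool.Agent.Helper70.MB.Goals

/-!
# CUTS: Fourier transform of the scaled bump function
-/

open MeasureTheory Set Metric
open scoped ENNReal FourierTransform Topology ContDiff
open Pool.Agent.Results.MP_91ee6f_gt

namespace Pool.Agent.Helper85.MB

open Pool.Agent.Helper70.MB

/-- Scaling of the cutoff. -/
theorem cuts : CUTS := by
  intro n x₀ ρ hρ ξ
  rw [hat_eq, hat_eq]
  set g : En n → ℂ := fun y =>
    Complex.exp ((↑(-2 * Real.pi * inner ℝ (x₀ + ρ • y) ξ) * Complex.I)) * (chi y : ℂ) with hg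
  have h1 : (fun x : En n => Complex.exp ((↑(-2 * Real.pi * inner ℝ x ξ) * Complex.I)) *
      (cut x₀ ρ x : ℂ)) = fun x => g (ρ⁻¹ • (x - x₀)) := by
    funext x
    simp only [hg, cut]
    rw [smul_smul, mul_inv_cancel₀ hρ.ne', one_smul, add_sub_cancel]
  rw [h1]
  have h2 : ∫ x : En n, g (ρ⁻¹ • (x - x₀)) = ∫ x : En n, g (ρ⁻¹ • x) :=
    integral_sub_right_eq_self (fun x : En n => g (ρ⁻¹ • x)) x₀
  rw [h2, Measure.integral_comp_inv_smul]
  have h3 : |ρ ^ Module.finrank ℝ (En n)| = ρ ^ n := by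
    rw [abs_of_pos (pow_pos hρ _)]
    simp [En]
  rw [h3]
  have h4 : ∀ y : En n, g y = Complex.exp ((↑(-2 * Real.pi * inner ℝ x₀ ξ) * Complex.I)) *
      (Complex.exp ((↑(-2 * Real.pi * inner ℝ y (ρ • ξ)) * Complex.I)) * (chi y : ℂ)) := by
    intro y
    simp only [hg]
    rw [← mul_assoc, ← Complex.exp_add]
    congr 2
    rw [inner_add_left, inner_smul_left, inner_smul_right]
    push_cast
    simp
    ring
  have h5 : ∫ x : En n, g x = Complex.exp ((↑(-2 * Real.pi * inner ℝ x₀ ξ) * Complex.I)) *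
      ∫ y : En n, (Complex.exp ((↑(-2 * Real.pi * inner ℝ y (ρ • ξ)) * Complex.I)) *
        (chi y : ℂ)) := by
    rw [← integral_const_mul]
    exact integral_congr_ae (Filter.Eventually.of_forall h4)
  rw [h5]
  rw [Complex.real_smul]
  push_cast
  ring

end Pool.Agent.Helper85.MB
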