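import Pool.Agent.Helper70.MB.Goals

/-!
# INTP: interpolation
-/

open MeasureTheory Set Metric
open scoped ENNReal FourierTransform Topology ContDiff
open Pool.Agent.Results.MP_91ee6f_gt

namespace Pool.Agent.Helper85.MB

open Pool.Agent.Helper70.MB

/-- Interpolation. -/
theorem intp : INTP := by
  intro n hn
  have hW : 0 < (volume (ball (0 : En n) 1)).toReal :=
    ENNReal.toReal_pos (measure_ball_pos _ _ one_pos).ne' measure_ball_lt_top.ne
  refine ⟨(volume (ball (0 : En n) 1)).toReal, hW, ?_⟩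
  intro u hu θ hθ hθ1
  set W : ℝ := (volume (ball (0 : En n) 1)).toReal with hWdef
  set T : ℝ := θ⁻¹ with hT
  have hT1 : 1 ≤ T := (one_le_inv₀ hθ).2 hθ1
  have hT0 : 0 < T := lt_of_lt_of_le one_pos hT1
  have hn1 : (1 : ℝ) ≤ n := by exact_mod_cast hn
  have hs1 : 0 ≤ sx n - 1 := by unfold sx; linarith
  set A : ℝ := ∫ x, |u x| with hA
  have hA0 : 0 ≤ A := integral_nonneg fun x => abs_nonneg _
  set r : ℝ := Real.sqrt T with hr
  have hr0 : 0 ≤ r := Real.sqrt_nonneg _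
  set S : Set (En n) := closedBall 0 r with hS
  have hSfin : volume S ≠ ⊤ := (measure_closedBall_lt_top).ne
  have hSvol : (volume S).toReal = r ^ n * W := by
    rw [hS, Measure.addHaar_closedBall _ _ hr0, ENNReal.toReal_mul, ENNReal.toReal_ofReal
      (pow_nonneg hr0 _)]
    simp [En, hWdef]
  -- pointwise inequality
  have hpt : ∀ ξ : En n, br ξ ^ (sx n - 1) * ‖hat u ξ‖ ^ 2 ≤
      θ * (br ξ ^ sx n * ‖hat u ξ‖ ^ 2) + S.indicator (fun _ => T ^ (sx n - 1) * A ^ 2) ξ := by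
    intro ξ
    have hb := br_pos ξ
    have hu2 : ‖hat u ξ‖ ^ 2 ≤ A ^ 2 := pow_le_pow_left₀ (norm_nonneg _) (norm_hat_le u ξ) 2
    have hind : 0 ≤ S.indicator (fun _ => T ^ (sx n - 1) * A ^ 2) ξ :=
      Set.indicator_nonneg (fun _ _ => by positivity) _
    by_cases hc : T ≤ br ξ
    · have h1 : br ξ ^ (sx n - 1) ≤ θ * br ξ ^ sx n := by
        rw [Real.rpow_sub_one hb.ne']
        have h2 : (br ξ)⁻¹ ≤ θ := by
          rw [← inv_inv θ]
          exact inv_anti₀ hT0 hc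
        rw [div_eq_mul_inv, mul_comm]
        exact mul_le_mul_of_nonneg_right h2 (br_rpow_pos ξ _).le
      have h3 : br ξ ^ (sx n - 1) * ‖hat u ξ‖ ^ 2 ≤ θ * br ξ ^ sx n * ‖hat u ξ‖ ^ 2 :=
        mul_le_mul_of_nonneg_right h1 (sq_nonneg _)
      nlinarith
    · push Not at hc
      have hmem : ξ ∈ S := by
        rw [hS, mem_closedBall_zero_iff, hr]
        apply Real.le_sqrt_of_sq_le
        have h1 : (2 * Real.pi * ‖ξ‖) ^ 2 < T := by
          have : br ξ = 1 + (2 * Real.pi * ‖ξ‖) ^ 2 := rfl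
          linarith
        have hpi : 1 ≤ 2 * Real.pi := by linarith [Real.pi_gt_three]
        have h2 : ‖ξ‖ ^ 2 ≤ (2 * Real.pi * ‖ξ‖) ^ 2 := by
          apply pow_le_pow_left₀ (norm_nonneg _)
          nlinarith [norm_nonneg ξ]
        linarith
      rw [Set.indicator_of_mem hmem]
      have h1 : br ξ ^ (sx n - 1) ≤ T ^ (sx n - 1) := Real.rpow_le_rpow hb.le hc.le hs1
      have h2 : br ξ ^ (sx n - 1) * ‖hat u ξ‖ ^ 2 ≤ T ^ (sx n - 1) * A ^ 2 :=
        mul_le_mul h1 hu2 (sq_nonneg _) (Real.rpow_nonneg hT0.le _)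
      have h3 : 0 ≤ θ * (br ξ ^ sx n * ‖hat u ξ‖ ^ 2) :=
        mul_nonneg hθ.le (mul_nonneg (br_rpow_pos ξ _).le (sq_nonneg _))
      linarith
  have hint1 : Integrable (fun ξ : En n => θ * (br ξ ^ sx n * ‖hat u ξ‖ ^ 2)) :=
    hu.2.2.const_mul θ
  have hint2 : Integrable (S.indicator (fun _ : En n => T ^ (sx n - 1) * A ^ 2)) := by
    rw [integrable_indicator_iff isClosed_closedBall.measurableSet]
    exact integrableOn_const hSfin
  have hI : NN (sx n - 1) u ≤ ∫ ξ : En n, (θ * (br ξ ^ sx n * ‖hat u ξ‖ ^ 2) +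
      S.indicator (fun _ => T ^ (sx n - 1) * A ^ 2) ξ) :=
    integral_mono (hu.integrable_le (by linarith)) (hint1.add hint2) hpt
  rw [integral_add hint1 hint2, integral_const_mul,
    integral_indicator isClosed_closedBall.measurableSet, setIntegral_const, smul_eq_mul] at hI
  have hreal : volume.real S = r ^ n * W := hSvol
  rw [hreal] at hI
  have hkey : r ^ n * T ^ (sx n - 1) ≤ T ^ n := by
    have h1 : r ^ n = T ^ ((n : ℝ) / 2) := by
      rw [hr, Real.sqrt_eq_rpow, ← Real.rpow_natCast, ← Real.rpow_mul hT0.le]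
      congr 1
      ring
    rw [h1, ← Real.rpow_add hT0, ← Real.rpow_natCast]
    apply Real.rpow_le_rpow_of_exponent_le hT1
    unfold sx
    linarith
  have hfin : r ^ n * W * (T ^ (sx n - 1) * A ^ 2) ≤ W / θ ^ n * A ^ 2 := by
    have h1 : W / θ ^ n = W * T ^ n := by
      rw [hT, inv_pow, div_eq_mul_inv]
    rw [h1]
    have h2 : r ^ n * W * (T ^ (sx n - 1) * A ^ 2) =
        (r ^ n * T ^ (sx n - 1)) * (W * A ^ 2) := by ring
    rw [h2]
    have h3 : (r ^ n * T ^ (sx n - 1)) * (W * A ^ 2) ≤ T ^ n * (W * A ^ 2) :=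
      mul_le_mul_of_nonneg_right hkey (by positivity)
    calc (r ^ n * T ^ (sx n - 1)) * (W * A ^ 2) ≤ T ^ n * (W * A ^ 2) := h3
      _ = W * T ^ n * A ^ 2 := by ring
  calc NN (sx n - 1) u ≤ _ := hI
    _ ≤ θ * NN (sx n) u + W / θ ^ n * A ^ 2 := by
        unfold NN
        linarith

end Pool.Agent.Helper85.MB
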